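import Pool.Agent.Work.MP_6f5fa7_al.Suff
import Pool.Agent.Work.MP_6f5fa7_al.Nec

/-!
# The locally finite primitive varieties of groups
-/

set_option autoImplicit false

namespace Pool.Agent.Results.MP_6f5fa7_al.LocallyFinite

open Pool.Agent.Work.MP_6f5fa7_al

/-- A locally finite variety of groups is primitive if and only if its finite `p`-groups are
abelian for every prime `p`, and, for every prime `p` such that the cyclic group of order `p ^ 2`
is in the variety, every finite group in it is the direct product of an abelian `p`-group and a
group which has no normal subgroup of index `p`. -/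
theorem result (W : Set (FreeGroup ℕ)) (hlf : IsLocFinite W) :
    IsPrimitive W ↔
      (∀ p : ℕ, p.Prime → ∀ (G : Type) [Group G] [Finite G], InVar W G → IsPGroup p G →
        ∀ a b : G, a * b = b * a) ∧
      (∀ p : ℕ, p.Prime → InVar W (Multiplicative (ZMod (p ^ 2))) →
        ∀ (G : Type) [Group G] [Finite G], InVar W G → SplitsAt p G) :=
  ⟨fun h => ⟨(nec h).ab, (nec h).split⟩, fun h => suff hlf ⟨h.1, h.2⟩⟩

end Pool.Agent.Results.MP_6f5fa7_al.LocallyFinite
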