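import Pool.Agent.Work.MP_6f5fa7_al.BBox
import Pool.Agent.Work.MP_6f5fa7_al.Mon.Final

/-!
# A primitive variety of groups which is not locally finite
-/

set_option autoImplicit false

namespace Pool.Agent.Results.MP_6f5fa7_al.NotLocallyFinite

open Pool.Agent.Work.MP_6f5fa7_al

/-- There is a primitive variety of groups which contains an infinite finitely generated group. -/
theorem result : ∃ W : Set (FreeGroup ℕ), IsPrimitive W ∧ ¬ IsLocFinite W :=
  BBox.q2_of_BB Mon.bb_holds

end Pool.Agent.Results.MP_6f5fa7_al.NotLocallyFinite
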