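import Pool.Agent.Work.MP_6f5fa7_al.Sol

/-!
# The locally soluble primitive varieties of groups
-/

set_option autoImplicit false

namespace Pool.Agent.Results.MP_6f5fa7_al.Soluble

open Pool.Agent.Work.MP_6f5fa7_al

/-- Let `V` be a variety of groups all of whose finitely generated groups are soluble. Then `V` is
primitive if and only if its finite `p`-groups are abelian for every prime `p` and it satisfies
the identities `x ^ (n * s) = 1` and `[x ^ s, y ^ s] = 1` for some coprime positive integers
`n` and `s` with `s` squarefree. -/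
theorem result (W : Set (FreeGroup ℕ))
    (hsol : ∀ (G : Type) [Group G], InVar W G → Group.FG G → Group.IsSolvable G) :
    IsPrimitive W ↔
      (∀ p : ℕ, p.Prime → ∀ (G : Type) [Group G] [Finite G], InVar W G → IsPGroup p G →
        ∀ a b : G, a * b = b * a) ∧
      ∃ n s : ℕ, n ≠ 0 ∧ Squarefree s ∧ n.Coprime s ∧
        ∀ (G : Type) [Group G], InVar W G → ∀ x y : G,
          x ^ (n * s) = 1 ∧ x ^ s * y ^ s = y ^ s * x ^ s :=
  ⟨fun h => ⟨(nec h).ab, sol_nec hsol h⟩, fun h => sol_suff hsol h.2 h.1⟩

end Pool.Agent.Results.MP_6f5fa7_al.Soluble
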